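import Pool.Agent.H86.IR.Targets1

/-!
# Products of inner radii: the energy is nonnegative
-/

set_option autoImplicit false

open Complex Topology Filter InnerProductSpace MeasureTheory Laplacian

namespace Pool.Agent.H49.IR

open Pool.Agent.H86.IR

lemma lap_cont {f : ℂ → ℝ} (hf : ContDiff ℝ 2 f) : Continuous (Δ f) := by
  rw [laplacian_eq_iteratedFDeriv_complexPlane]
  have h : Continuous (iteratedFDeriv ℝ 2 f) := hf.continuous_iteratedFDeriv (m := 2) le_rfl
  exact ((ContinuousMultilinearMap.apply ℝ (fun _ : Fin 2 => ℂ) ℝ ![1, 1]).continuous.comp h).add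
    ((ContinuousMultilinearMap.apply ℝ (fun _ : Fin 2 => ℂ) ℝ ![I, I]).continuous.comp h)

lemma lap_zero {f : ℂ → ℝ} {z : ℂ} {c : ℝ} (h : f =ᶠ[𝓝 z] fun _ => c) : (Δ f) z = 0 := by
  rw [(laplacian_congr_nhds h).eq_of_nhds, laplacian_const]
  rfl

lemma lap_supp {f : ℂ → ℝ} (hf : HasCompactSupport f) : HasCompactSupport (Δ f) := by
  refine HasCompactSupport.intro hf fun z hz => ?_
  refine lap_zero (c := 0) ?_
  have := (isClosed_tsupport f).isOpen_compl.mem_nhds hz
  filter_upwards [this] with w hw
  exact image_eq_zero_of_notMem_tsupport hw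

lemma lap_scale {f : ℂ → ℝ} (hf : ContDiff ℝ 2 f) (c : ℝ) (z : ℂ) :
    (Δ (fun w : ℂ => f (c • w))) z = c ^ 2 * (Δ f) (c • z) := by
  simp only [laplacian_eq_iteratedFDeriv_complexPlane]
  have h := iteratedFDeriv_comp_const_smul (𝕜 := ℝ) (i := 2) c hf
  rw [h]
  simp only [smul_apply, smul_eq_mul]
  ring

theorem cc (hPR : T_PR) (hIP : T_IP) : T_CC := by
  intro W K hW hK hΔ hlim
  let φ : ContDiffBump (0 : ℂ) := ⟨1, 2, one_pos, one_lt_two⟩
  have hφ2 : ContDiff ℝ 2 (φ : ℂ → ℝ) := φ.contDiff
  set C0 : ℝ := ∫ z, |(Δ (φ : ℂ → ℝ)) z| with hC0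
  have hC0n : 0 ≤ C0 := integral_nonneg fun z => abs_nonneg _
  have key : ∀ ε : ℝ, 0 < ε → 2 * ∫ z, W z * (Δ W) z ≤ ε ^ 2 * C0 := by
    intro ε hε
    have h1 : ∀ᶠ z in cocompact ℂ, |W z| < ε := by
      have := (Metric.tendsto_nhds.mp hlim) ε hε
      simpa [Real.dist_eq] using this
    obtain ⟨t, ht, hts⟩ := mem_cocompact.mp h1
    obtain ⟨R0, hR0⟩ := (hK.union ht).isBounded.subset_ball (0 : ℂ)
    set R : ℝ := max R0 1 with hRd
    have hR1 : (1 : ℝ) ≤ R := le_max_right _ _
    have hRp : 0 < R := by linarith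
    have hsub : ∀ z ∈ K ∪ t, ‖z‖ < R := by
      intro z hz
      have := hR0 hz
      rw [mem_ball_zero_iff] at this
      exact lt_of_lt_of_le this (le_max_left _ _)
    have hsmall : ∀ z : ℂ, R ≤ ‖z‖ → |W z| ≤ ε := by
      intro z hz
      have hzt : z ∈ tᶜ := by
        intro hz2
        have := hsub z (Or.inr hz2)
        linarith
      exact (hts hzt).le
    set χ : ℂ → ℝ := fun z => φ (R⁻¹ • z) with hχ
    have hχc : ContDiff ℝ 2 χ := hφ2.comp (contDiff_const_smul _)
    have hone : ∀ z : ℂ, ‖z‖ ≤ R → χ z = 1 := by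
      intro z hz
      apply φ.one_of_mem_closedBall
      rw [mem_closedBall_zero_iff, norm_smul, Real.norm_eq_abs, abs_of_pos (by positivity)]
      change R⁻¹ * ‖z‖ ≤ 1
      rw [inv_mul_le_iff₀ hRp, mul_one]
      exact hz
    have hχn : ∀ z, 0 ≤ χ z := fun z => φ.nonneg
    have hχs : HasCompactSupport χ := by
      refine HasCompactSupport.intro (isCompact_closedBall (0 : ℂ) (2 * R)) fun z hz => ?_
      apply φ.zero_of_le_dist
      rw [mem_closedBall_zero_iff, not_le] at hz
      rw [dist_zero_right, norm_smul, Real.norm_eq_abs, abs_of_pos (by positivity)]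
      change (2 : ℝ) ≤ R⁻¹ * ‖z‖
      rw [le_inv_mul_iff₀ hRp]
      linarith
    have hlap0 : ∀ z : ℂ, ‖z‖ < R → (Δ χ) z = 0 := by
      intro z hz
      refine lap_zero (c := 1) ?_
      have : Metric.ball (0 : ℂ) R ∈ 𝓝 z := Metric.isOpen_ball.mem_nhds (by
        rw [mem_ball_zero_iff]
        exact hz)
      filter_upwards [this] with w hw
      rw [mem_ball_zero_iff] at hw
      exact hone w hw.le
    have hint : ∫ z, |(Δ χ) z| = C0 := by
      have e1 : ∀ z : ℂ, |(Δ χ) z| = (R⁻¹) ^ 2 * |(Δ (φ : ℂ → ℝ)) (R⁻¹ • z)| := by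
        intro z
        rw [hχ, lap_scale hφ2, abs_mul, abs_of_nonneg (by positivity)]
      have e2 := Measure.integral_comp_inv_smul volume (fun z : ℂ => |(Δ (φ : ℂ → ℝ)) z|) R
      rw [Complex.finrank_real_complex, abs_of_nonneg (by positivity), smul_eq_mul, ← hC0] at e2
      simp_rw [e1]
      rw [integral_const_mul, e2]
      field_simp
    have hW2 : ContDiff ℝ 2 (fun z => W z * W z) := hW.mul hW
    have hip := hIP χ (fun z => W z * W z) hχc hχs hW2
    -- right hand side
    have hr : ∫ z, W z * W z * (Δ χ) z ≤ ε ^ 2 * C0 := by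
      rw [← hint, ← integral_const_mul]
      refine integral_mono ?_ ?_ ?_
      · refine Continuous.integrable_of_hasCompactSupport ?_ ?_
        · exact (hW2.continuous).mul (lap_cont hχc)
        · exact (lap_supp hχs).mul_left
      · refine Continuous.integrable_of_hasCompactSupport ?_ ?_
        · exact continuous_const.mul (lap_cont hχc).abs
        · exact ((lap_supp hχs).comp_left (g := fun x : ℝ => |x|) abs_zero).mul_left
      · intro z
        simp only
        rcases lt_or_ge ‖z‖ R with h | h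
        · rw [hlap0 z h]
          simp
        · have a1 := hsmall z h
          have a2 : W z * W z ≤ ε ^ 2 := by
            have := abs_nonneg (W z)
            have e : W z * W z = |W z| ^ 2 := by
              rw [sq_abs]
              ring
            rw [e]
            exact pow_le_pow_left₀ this a1 2
          calc W z * W z * (Δ χ) z ≤ W z * W z * |(Δ χ) z| :=
                mul_le_mul_of_nonneg_left (le_abs_self _) (mul_self_nonneg _)
            _ ≤ ε ^ 2 * |(Δ χ) z| := mul_le_mul_of_nonneg_right a2 (abs_nonneg _)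
    -- left hand side
    have hl : 2 * ∫ z, W z * (Δ W) z ≤ ∫ z, χ z * (Δ (fun z => W z * W z)) z := by
      have e1 : 2 * ∫ z, W z * (Δ W) z = ∫ z, χ z * (2 * (W z * (Δ W) z)) := by
        rw [← integral_const_mul]
        refine integral_congr_ae (Eventually.of_forall fun z => ?_)
        simp only
        by_cases hz : z ∈ K
        · rw [hone z (hsub z (Or.inl hz)).le, one_mul]
        · rw [hΔ z hz]
          simp
      rw [e1]
      refine integral_mono ?_ ?_ ?_
      · refine Continuous.integrable_of_hasCompactSupport ?_ ?_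
        · exact hχc.continuous.mul (continuous_const.mul (hW.continuous.mul (lap_cont hW)))
        · exact hχs.mul_right
      · refine Continuous.integrable_of_hasCompactSupport ?_ ?_
        · exact hχc.continuous.mul (lap_cont hW2)
        · exact hχs.mul_right
      · intro z
        simp only
        refine mul_le_mul_of_nonneg_left ?_ (hχn z)
        rw [hPR W W z hW.contDiffAt hW.contDiffAt]
        nlinarith [mul_self_nonneg (fderiv ℝ W z 1), mul_self_nonneg (fderiv ℝ W z I)]
    calc 2 * ∫ z, W z * (Δ W) z ≤ ∫ z, χ z * (Δ (fun z => W z * W z)) z := hl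
      _ = ∫ z, W z * W z * (Δ χ) z := hip
      _ ≤ ε ^ 2 * C0 := hr
  by_contra hcon
  push Not at hcon
  set J : ℝ := ∫ z, W z * (Δ W) z with hJ
  have h2 := key (Real.sqrt (J / (C0 + 1))) (Real.sqrt_pos.mpr (by positivity))
  rw [Real.sq_sqrt (by positivity)] at h2
  have h3 : J / (C0 + 1) * C0 ≤ J := by
    rw [div_mul_eq_mul_div, div_le_iff₀ (by positivity)]
    nlinarith
  linarith

end Pool.Agent.H49.IR
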