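import Pool.Agent.H86.IR.Targets2

/-!
# Products of inner radii: the key inequality
-/

set_option autoImplicit false

namespace Pool.Agent.H49.IR

open Pool.Agent.H86.IR

lemma wt_refl (N k : ℕ) (hN : 1 ≤ N) (hk : k ≤ N) : wt N (N - k) = (-1) ^ N * wt N k := by
  have hsq : ((-1 : ℝ) ^ N) * (-1) ^ N = 1 := by
    rw [← mul_pow]; norm_num
  unfold wt
  by_cases h0 : k = 0
  · subst h0
    have : ¬ (N = 0) := by omega
    simp [this]
    ring
  · by_cases h1 : k = N
    · subst h1
      simp [h0]
      linear_combination -(1 / 2 : ℝ) * hsq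
    · have a1 : ¬ (N - k = 0) := by omega
      have a2 : ¬ (N - k = N) := by omega
      rw [if_neg a1, if_neg a2, if_neg h0, if_neg h1]
      have e : (-1 : ℝ) ^ N = (-1) ^ (N - k) * (-1) ^ k := by
        rw [← pow_add]
        congr 1
        omega
      have hk2 : ((-1 : ℝ) ^ k) * (-1) ^ k = 1 := by
        rw [← mul_pow]; norm_num
      rw [e, mul_assoc, hk2, mul_one]

/-- reversing both indices -/
lemma sum_refl (N : ℕ) (hN : 1 ≤ N) (f : ℕ → ℕ → ℝ) :
    ∑ k ∈ Finset.range (N + 1), ∑ j ∈ Finset.range (N + 1), wt N k * wt N j * f (N - k) (N - j) =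
      ∑ k ∈ Finset.range (N + 1), ∑ j ∈ Finset.range (N + 1), wt N k * wt N j * f k j := by
  have hsq : ((-1 : ℝ) ^ N) * (-1) ^ N = 1 := by
    rw [← mul_pow]; norm_num
  rw [← Finset.sum_range_reflect (fun k => ∑ j ∈ Finset.range (N + 1),
    wt N k * wt N j * f k j) (N + 1)]
  refine Finset.sum_congr rfl fun k hk => ?_
  have hk' : k ≤ N := by
    have := Finset.mem_range.mp hk
    omega
  rw [← Finset.sum_range_reflect (fun j => wt N (N + 1 - 1 - k) * wt N j * f (N + 1 - 1 - k) j)
    (N + 1)]
  refine Finset.sum_congr rfl fun j hj => ?_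
  have hj' : j ≤ N := by
    have := Finset.mem_range.mp hj
    omega
  have e1 : N + 1 - 1 - k = N - k := by omega
  have e2 : N + 1 - 1 - j = N - j := by omega
  rw [e1, e2, wt_refl N k hN hk', wt_refl N j hN hj']
  linear_combination -(wt N k * wt N j * f (N - k) (N - j)) * hsq

/-- the pointwise identity for the difference -/
lemma log_u (u : ℝ) (hu : |u| ≤ Real.pi) :
    Real.log |u| = Real.log |2 * Real.sin (u / 2)| - eta |u| := by
  by_cases h : u = 0
  · subst h
    simp [eta]
  · have h0 : 0 < |u| := abs_pos.mpr h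
    have hs : 0 < Real.sin (|u| / 2) := by
      apply Real.sin_pos_of_pos_of_lt_pi
      · linarith
      · have := Real.pi_pos
        linarith
    have e : |2 * Real.sin (u / 2)| = 2 * Real.sin (|u| / 2) := by
      rcases abs_cases u with ⟨h1, h2⟩ | ⟨h1, h2⟩
      · rw [h1, abs_of_pos]
        rw [h1] at hs
        linarith
      · rw [h1]
        rw [h1] at hs
        have e2 : Real.sin (-u / 2) = - Real.sin (u / 2) := by
          rw [neg_div, Real.sin_neg]
        rw [e2] at hs ⊢
        rw [abs_of_neg (by linarith)]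
        ring
    rw [e]
    unfold eta
    rw [Real.log_div (by positivity) (by positivity)]
    ring

/-- the pointwise identity for the sum -/
lemma log_v (v : ℝ) (h0 : 0 ≤ v) (h1 : v ≤ 2 * Real.pi) :
    Real.log |2 * Real.sin (v / 2)| = Real.log v + Real.log (2 * Real.pi - v) + zet v := by
  unfold zet
  have hpi := Real.pi_pos
  by_cases hv : v = 0
  · subst hv
    simp
  · by_cases hv2 : v = 2 * Real.pi
    · rw [if_pos (Or.inr hv2), hv2]
      have : 2 * Real.pi / 2 = Real.pi := by ring
      rw [this, Real.sin_pi]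
      simp
    · rw [if_neg (by tauto)]
      have a0 : 0 < v := lt_of_le_of_ne h0 (Ne.symm hv)
      have a1 : v < 2 * Real.pi := lt_of_le_of_ne h1 hv2
      have hs : 0 < Real.sin (v / 2) := by
        apply Real.sin_pos_of_pos_of_lt_pi
        · linarith
        · linarith
      have a2 : 0 < 2 * Real.pi - v := by linarith
      rw [abs_of_pos (by positivity), Real.log_div (by positivity) (by positivity),
        Real.log_mul a0.ne' a2.ne']
      ring

lemma kap_eq : kap = 2 * (Real.log 3 / 4 + Real.log (4 / 3)) + Real.log (Real.pi / 2) / 2 +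
    Real.log (4 / Real.pi) / 2 := by
  have hpi := Real.pi_pos
  unfold kap
  have e1 : Real.log (16 * Real.sqrt 6 / 9) = Real.log 16 + Real.log 6 / 2 - Real.log 9 := by
    rw [Real.log_div (by positivity) (by norm_num), Real.log_mul (by norm_num) (by positivity),
      Real.log_sqrt (by norm_num)]
  have e2 : Real.log 16 = 4 * Real.log 2 := by
    rw [show (16 : ℝ) = 2 ^ 4 by norm_num, Real.log_pow]; norm_num
  have e3 : Real.log 6 = Real.log 2 + Real.log 3 := by
    rw [← Real.log_mul (by norm_num) (by norm_num)]; norm_num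
  have e4 : Real.log 9 = 2 * Real.log 3 := by
    rw [show (9 : ℝ) = 3 ^ 2 by norm_num, Real.log_pow]; norm_num
  have e5 : Real.log (4 / 3) = 2 * Real.log 2 - Real.log 3 := by
    rw [Real.log_div (by norm_num) (by norm_num), show (4 : ℝ) = 2 ^ 2 by norm_num, Real.log_pow]
    norm_num
  have e6 : Real.log (Real.pi / 2) = Real.log Real.pi - Real.log 2 := by
    rw [Real.log_div hpi.ne' (by norm_num)]
  have e7 : Real.log (4 / Real.pi) = 2 * Real.log 2 - Real.log Real.pi := by
    rw [Real.log_div (by norm_num) hpi.ne', show (4 : ℝ) = 2 ^ 2 by norm_num, Real.log_pow]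
    norm_num
  rw [e1, e2, e3, e4, e5, e6, e7]
  ring

theorem ki (hCRX : T_CRX) (hYB : T_YB) (hZB : T_ZB) (hX0 : T_X0) : T_KI := by
  intro N t ht
  have hpi := Real.pi_pos
  have hN := ht.pos
  have hmono : ∀ i j, i ≤ j → j ≤ N → t i ≤ t j := by
    intro i j hij hj
    rcases Nat.lt_or_ge i j with h | h
    · exact (ht.mono i j h hj).le
    · have : i = j := by omega
      rw [this]
  have hge : ∀ k, k ≤ N → 0 ≤ t k := by
    intro k hk
    have := hmono 0 k (Nat.zero_le _) hk
    rwa [ht.zero] at this
  have hle : ∀ k, k ≤ N → t k ≤ Real.pi := by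
    intro k hk
    have := hmono k N hk le_rfl
    rwa [ht.last] at this
  have h1 := hCRX N t ht
  have h2 := (abs_le.mp (hYB N t ht)).2
  have h3 := (abs_le.mp (hZB N t ht)).2
  have h4 := hX0 N t hN ht.zero ht.mono
  have h5 := hX0 N (fun k => Real.pi - t (N - k)) hN (by simp [ht.last]) (by
    intro i j hij hj
    have := ht.mono (N - j) (N - i) (by omega) (by omega)
    linarith)
  have h6 := sum_refl N hN (fun k j => Real.log (Real.pi - t k + (Real.pi - t j)))
  rw [h6] at h5
  have key : -(∑ k ∈ Finset.range (N + 1), ∑ j ∈ Finset.range (N + 1), wt N k * wt N j *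
      Real.log |t k - t j|) =
      -(∑ k ∈ Finset.range (N + 1), ∑ j ∈ Finset.range (N + 1), wt N k * wt N j *
        (Real.log |2 * Real.sin ((t k - t j) / 2)| + Real.log |2 * Real.sin ((t k + t j) / 2)|)) +
      (∑ k ∈ Finset.range (N + 1), ∑ j ∈ Finset.range (N + 1), wt N k * wt N j *
        eta (|t k - t j|)) +
      (∑ k ∈ Finset.range (N + 1), ∑ j ∈ Finset.range (N + 1), wt N k * wt N j *
        Real.log (t k + t j)) +
      (∑ k ∈ Finset.range (N + 1), ∑ j ∈ Finset.range (N + 1), wt N k * wt N j *
        Real.log (Real.pi - t k + (Real.pi - t j))) +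
      (∑ k ∈ Finset.range (N + 1), ∑ j ∈ Finset.range (N + 1), wt N k * wt N j *
        zet (t k + t j)) := by
    simp only [← Finset.sum_neg_distrib, ← Finset.sum_add_distrib]
    refine Finset.sum_congr rfl fun k hk => Finset.sum_congr rfl fun j hj => ?_
    have hk' : k ≤ N := by
      have := Finset.mem_range.mp hk
      omega
    have hj' : j ≤ N := by
      have := Finset.mem_range.mp hj
      omega
    have a1 := hge k hk'
    have a2 := hge j hj'
    have a3 := hle k hk'
    have a4 := hle j hj'
    have b1 := log_u (t k - t j) (abs_le.mpr ⟨by linarith, by linarith⟩)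
    have b2 := log_v (t k + t j) (by linarith) (by linarith)
    have b3 : Real.pi - t k + (Real.pi - t j) = 2 * Real.pi - (t k + t j) := by ring
    rw [b3]
    linear_combination -(wt N k * wt N j) * b1 + (wt N k * wt N j) * b2
  have h7 : Real.log (t 1 * (Real.pi - t (N - 1))) =
      Real.log (t 1) + Real.log (Real.pi - t (N - 1)) := by
    have c1 := ht.mono 0 1 (by omega) hN
    have c2 := ht.mono (N - 1) N (by omega) le_rfl
    rw [ht.zero] at c1
    rw [ht.last] at c2
    rw [Real.log_mul c1.ne' (by linarith : (0 : ℝ) < Real.pi - t (N - 1)).ne']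
  rw [key, h7, kap_eq]
  linarith

end Pool.Agent.H49.IR
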